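/-
ROW GFt. gf_final (NG/GF.lean) with a small tail instead of a bounded support. PROOF. Copy the proof of gf_final; the only change is in the region far away (hIII, h2 there):
`1 - cb (B s1) 0 x = 0` for `‖x‖ ≤ B s1 / 2` and it is `≤ 1`, so `∫ |sO (u 0) x| (1 - cb (B s1) 0 x) ≤ ∫_{x : B √(T₂/2) / 2 ≤ ‖x‖} |sO (u 0) x| ≤ τ` (`√(T₂/2) ≤ s1`; the integrand is bounded by the
indicator of this closed set times `|sO (u 0) x|`; `sO (u 0)` is integrable by hO at `t = 0`).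
-/
import Pool.Agent.H87.NG.GF

set_option autoImplicit false

open Set Filter Topology MeasureTheory
open scoped ContDiff

namespace Pool.Agent.H87.NS

open Pool.Agent.H16

theorem gf_tail {T : ℝ} {u : ℝ → E3 → E3} {p : ℝ → E3 → ℝ} (h : IsHInfAxisymNS T u p) {K η B a T₂ τ : ℝ}
    (ha : 0 < a) (hB : 0 < B) (hK : 0 ≤ K) (hT₂ : 0 < T₂) (hT : T₂ < T)
    (hO : ∀ t ∈ Icc 0 T₂, Integrable (sO (u t)) ∧ ∫ x, |sO (u t) x| ≤ 2 * K)
    (hO2 : ∀ t ∈ Ioc 0 T₂, ∫ x, sO (u t) x ^ 2 ≤ CO * K ^ 2 * t ^ (-(3/2) : ℝ))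
    (hη : ∫ t in (0:ℝ)..T₂, ∫ x, |sV (u t) x| * √(gsq (sV (u t)) x) ≤ η)
    (hs : ∫ x in {x : E3 | B * √(T₂ / 2) / 2 ≤ ‖x‖}, |sO (u 0) x| ≤ τ) :
    ∃ t₁ ∈ Icc (T₂ / 2) T₂, ∫ x, |sO (u t₁) x| ≤ √8 * a * √B * √CO * K
      + 1 / a * √(10 * B ^ 3) * √((∫ x, ‖u 0 x‖ ^ 2) / √T₂) + 2 * η
      + 8 * CB * √CO * K / B * √((∫ x, ‖u 0 x‖ ^ 2) / √T₂) + 4 * CB * K / B ^ 2 + τ := by
  have hF := flow_of h
  have hCO := GF_CO
  have hCB := CB_pos
  set E : ℝ := ∫ x, ‖u 0 x‖ ^ 2 with hE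
  have hE0 : 0 ≤ E := integral_nonneg fun _ => sq_nonneg _
  have hT2 : T₂ / 2 < T₂ := by linarith
  have hi1 := dsq_ii h (le_refl (0 : ℝ)) (show 0 ≤ T₂ / 2 by linarith) (hT2.trans hT)
  have hi2 := dsq_ii h (show 0 ≤ T₂ / 2 by linarith) hT2.le hT
  have hen := (energy1 h (t := T₂) ⟨hT₂.le, hT⟩).1
  rw [← intervalIntegral.integral_add_adjacent_intervals hi1 hi2] at hen
  have hn1 : 0 ≤ ∫ s in (0:ℝ)..T₂ / 2, ∫ x, dsq (u s) x :=
    intervalIntegral.integral_nonneg (by linarith) fun s _ =>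
      integral_nonneg fun _ => Finset.sum_nonneg fun _ _ => sq_nonneg _
  obtain ⟨t₁, ht₁, hd⟩ := good_time (A := E / 2) hT2 hi2 (by linarith)
  have hd' : ∫ x, dsq (u t₁) x ≤ E / T₂ := by
    refine hd.trans (le_of_eq ?_)
    have : T₂ - T₂ / 2 = T₂ / 2 := by ring
    rw [this]
    field_simp
  refine ⟨t₁, ht₁, ?_⟩
  have ht0 : 0 < t₁ := by linarith [ht₁.1]
  have htT : t₁ < T := ht₁.2.trans_lt hT
  have htI : t₁ ∈ Ico 0 T := ⟨ht0.le, htT⟩
  have hAx := axF_of h.ns htI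
  have hOsm := (svw_smooth h.ns htI).2.2
  obtain ⟨K3, hK3⟩ := svwDB h htT
  have hObl : Integrable (fun x => sO (u t₁) x ^ 2) := (DB_BL (hK3 t₁ ⟨ht0.le, le_rfl⟩).2.2).2.1
  have hOi := (hO t₁ ⟨ht0.le, ht₁.2⟩).1
  have hO2t := hO2 t₁ ⟨ht0, ht₁.2⟩
  set s1 := √t₁ with hs1
  have hs0 : 0 < s1 := Real.sqrt_pos.2 ht0
  have hs2 : s1 * s1 = t₁ := Real.mul_self_sqrt ht0.le
  set S2 := √T₂ with hS2
  have hS0 : 0 < S2 := Real.sqrt_pos.2 hT₂
  have hSS : S2 * S2 = T₂ := Real.mul_self_sqrt hT₂.le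
  have hsS : s1 ≤ S2 := Real.sqrt_le_sqrt ht₁.2
  have hL : 0 < B * s1 := mul_pos hB hs0
  have hsplit := GF_split hOi (δ := (a * s1) ^ 2) hL
  -- the region near the axis
  have hI : ∫ x in {x : E3 | rsq x ≤ (a * s1) ^ 2 ∧ ‖x‖ ≤ B * s1}, |sO (u t₁) x| ≤
      √8 * a * √B * √CO * K := by
    have h1 := GF_cs (f := sO (u t₁)) (v := 8 * (a * s1) ^ 2 * (B * s1)) (by positivity)
      (vol_axis (by positivity) hL.le) hOsm.continuous hObl
    refine h1.trans ?_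
    refine (mul_le_mul_of_nonneg_left (Real.sqrt_le_sqrt hO2t) (Real.sqrt_nonneg _)).trans ?_
    rw [← Real.sqrt_mul (by positivity)]
    refine Real.sqrt_le_iff.2 ⟨by positivity, le_of_eq ?_⟩
    have e1 := GF_32 ht0
    have e2 : √(8:ℝ) ^ 2 = 8 := Real.sq_sqrt (by norm_num)
    have e3 : √B ^ 2 = B := Real.sq_sqrt hB.le
    have e4 : √CO ^ 2 = CO := Real.sq_sqrt hCO
    have e6 : (√8 * a * √B * √CO * K) ^ 2 = √8 ^ 2 * a ^ 2 * √B ^ 2 * √CO ^ 2 * K ^ 2 := by ring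
    rw [e6, e2, e3, e4]
    have e5 : 8 * (a * s1) ^ 2 * (B * s1) * (CO * K ^ 2 * t₁ ^ (-(3/2) : ℝ)) =
        8 * a ^ 2 * B * CO * K ^ 2 * ((s1 * s1) * s1 * t₁ ^ (-(3/2) : ℝ)) := by ring
    rw [e5, hs2, e1, mul_one]
  -- the region off the axis
  have hII : ∫ x in {x : E3 | (a * s1) ^ 2 < rsq x ∧ ‖x‖ ≤ B * s1}, |sO (u t₁) x| ≤
      1 / a * √(10 * B ^ 3) * √(E / S2) := by
    have hcc : Continuous fun x => ‖curl (u t₁) x‖ := (curl_smooth hAx.smooth).continuous.norm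
    have hci := Loc_cint hAx (dsq_int h htI).1
    have hr : Continuous rsq := by
      unfold rsq
      fun_prop
    have hA2 : MeasurableSet {x : E3 | (a * s1) ^ 2 < rsq x ∧ ‖x‖ ≤ B * s1} :=
      (isOpen_lt continuous_const hr).measurableSet.inter
        (isClosed_le continuous_norm continuous_const).measurableSet
    have hvol : volume {x : E3 | (a * s1) ^ 2 < rsq x ∧ ‖x‖ ≤ B * s1} ≤ ENNReal.ofReal (5 * (B * s1) ^ 3) := by
      refine (measure_mono ?_).trans (GF_vol hL.le)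
      intro x hx
      rw [mem_closedBall_zero_iff]
      exact hx.2
    have hfin : volume {x : E3 | (a * s1) ^ 2 < rsq x ∧ ‖x‖ ≤ B * s1} ≠ ⊤ :=
      (hvol.trans_lt ENNReal.ofReal_lt_top).ne
    have : IsFiniteMeasure (volume.restrict {x : E3 | (a * s1) ^ 2 < rsq x ∧ ‖x‖ ≤ B * s1}) :=
      isFiniteMeasure_restrict.2 hfin
    have hc1 : Integrable (fun x => ‖curl (u t₁) x‖)
        (volume.restrict {x : E3 | (a * s1) ^ 2 < rsq x ∧ ‖x‖ ≤ B * s1}) := by
      refine ((integrable_const (1 : ℝ)).add hci.restrict).mono' hcc.aestronglyMeasurable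
        (Eventually.of_forall fun x => ?_)
      rw [norm_norm]
      show ‖curl (u t₁) x‖ ≤ 1 + ‖curl (u t₁) x‖ ^ 2
      nlinarith [norm_nonneg (curl (u t₁) x), sq_nonneg (‖curl (u t₁) x‖ - 1)]
    have h1 : ∫ x in {x : E3 | (a * s1) ^ 2 < rsq x ∧ ‖x‖ ≤ B * s1}, |sO (u t₁) x| ≤
        ∫ x in {x : E3 | (a * s1) ^ 2 < rsq x ∧ ‖x‖ ≤ B * s1}, 1 / (a * s1) * ‖curl (u t₁) x‖ := by
      refine integral_mono_of_nonneg (Eventually.of_forall fun x => abs_nonneg _) (hc1.const_mul _) ?_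
      filter_upwards [ae_restrict_mem hA2] with x hx
      exact GF_off hAx (mul_pos ha hs0) hx.1
    rw [integral_const_mul] at h1
    have h2 := GF_cs (f := fun x => ‖curl (u t₁) x‖) (by positivity) hvol hcc hci
    simp only [abs_norm] at h2
    have h3 : ∫ x, ‖curl (u t₁) x‖ ^ 2 ≤ 2 * (E / T₂) := by
      have c1 : ∫ x, ‖curl (u t₁) x‖ ^ 2 ≤ ∫ x, 2 * dsq (u t₁) x :=
        integral_mono hci ((dsq_int h htI).1.const_mul 2) fun x => Loc_curl _ x
      rw [integral_const_mul] at c1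
      linarith
    have h4 : ∫ x in {x : E3 | (a * s1) ^ 2 < rsq x ∧ ‖x‖ ≤ B * s1}, ‖curl (u t₁) x‖ ≤
        √(5 * (B * s1) ^ 3) * √(2 * (E / T₂)) :=
      h2.trans (mul_le_mul_of_nonneg_left (Real.sqrt_le_sqrt h3) (Real.sqrt_nonneg _))
    have h5 : √(5 * (B * s1) ^ 3) * √(2 * (E / T₂)) ≤ s1 * (√(10 * B ^ 3) * √(E / S2)) := by
      rw [← Real.sqrt_mul (by positivity)]
      refine Real.sqrt_le_iff.2 ⟨by positivity, ?_⟩
      have e1 : √(10 * B ^ 3) ^ 2 = 10 * B ^ 3 := Real.sq_sqrt (by positivity)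
      have e2 : √(E / S2) ^ 2 = E / S2 := Real.sq_sqrt (by positivity)
      have e0 : (s1 * (√(10 * B ^ 3) * √(E / S2))) ^ 2 = s1 ^ 2 * (√(10 * B ^ 3) ^ 2 * √(E / S2) ^ 2) := by ring
      rw [e0, e1, e2, ← hSS]
      have e3 : s1 ^ 2 * (10 * B ^ 3 * (E / S2)) = 10 * B ^ 3 * E * s1 ^ 2 * (S2 / (S2 * S2)) := by
        field_simp
      have e4 : 5 * (B * s1) ^ 3 * (2 * (E / (S2 * S2))) = 10 * B ^ 3 * E * s1 ^ 2 * (s1 / (S2 * S2)) := by
        field_simp
        ring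
      rw [e3, e4]
      exact mul_le_mul_of_nonneg_left (div_le_div_of_nonneg_right hsS (by positivity)) (by positivity)
    calc ∫ x in {x : E3 | (a * s1) ^ 2 < rsq x ∧ ‖x‖ ≤ B * s1}, |sO (u t₁) x|
        ≤ 1 / (a * s1) * ∫ x in {x : E3 | (a * s1) ^ 2 < rsq x ∧ ‖x‖ ≤ B * s1}, ‖curl (u t₁) x‖ := h1
      _ ≤ 1 / (a * s1) * (s1 * (√(10 * B ^ 3) * √(E / S2))) :=
          mul_le_mul_of_nonneg_left (h4.trans h5) (by positivity)
      _ = 1 / a * √(10 * B ^ 3) * √(E / S2) := by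
          field_simp
  -- the region far away
  have hIII : ∫ x, |sO (u t₁) x| * (1 - cb (B * s1) 0 x) ≤
      2 * η + 8 * CB * √CO * K / B * √(E / S2) + 4 * CB * K / B ^ 2 + τ := by
    obtain ⟨_, hW0, hone, _⟩ := (Classical.choose_spec cutball).2 (B * s1) 0 hL
    have hW : WB (fun x => 1 - cb (B * s1) 0 x) CB (B * s1) := hW0
    have h1 := wt_L1 h hW hL hCB le_rfl ht0.le htT (K := K) (fun r hr => hO r ⟨hr.1, hr.2.trans ht₁.2⟩)
    have h2 : ∫ x, |sO (u 0) x| * (1 - cb (B * s1) 0 x) ≤ τ := by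
      refine le_trans ?_ hs
      have hi0 : Integrable (sO (u 0)) := (hO 0 ⟨le_rfl, hT₂.le⟩).1
      have hSm : MeasurableSet {x : E3 | B * √(T₂ / 2) / 2 ≤ ‖x‖} :=
        (isClosed_le continuous_const continuous_norm).measurableSet
      have hWg := hW0.1
      have hi3 : Integrable (fun x => |sO (u 0) x| * (1 - cb (B * s1) 0 x)) := by
        refine hi0.abs.mono' (hi0.abs.aestronglyMeasurable.mul hWg.smooth.continuous.aestronglyMeasurable)
          (Eventually.of_forall fun x => ?_)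
        rw [Real.norm_eq_abs, abs_mul, abs_abs, abs_of_nonneg (hWg.nonneg x)]
        exact mul_le_of_le_one_right (abs_nonneg _) (hWg.le_one x)
      rw [← integral_indicator hSm]
      refine integral_mono hi3 (hi0.abs.indicator hSm) fun x => ?_
      show |sO (u 0) x| * (1 - cb (B * s1) 0 x) ≤
        {x : E3 | B * √(T₂ / 2) / 2 ≤ ‖x‖}.indicator (fun x => |sO (u 0) x|) x
      rcases le_or_gt ‖x‖ (B * s1 / 2) with hx | hx
      · rw [hone x (by rw [GF_axp, sub_zero]; exact hx), sub_self, mul_zero]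
        exact indicator_nonneg (fun _ _ => abs_nonneg _) x
      · have h3 : B * √(T₂ / 2) / 2 ≤ ‖x‖ := by
          refine le_trans ?_ hx.le
          have h4 : √(T₂ / 2) ≤ s1 := Real.sqrt_le_sqrt ht₁.1
          have := mul_le_mul_of_nonneg_left h4 hB.le
          linarith
        have e1 : {x : E3 | B * √(T₂ / 2) / 2 ≤ ‖x‖}.indicator (fun x => |sO (u 0) x|) x = |sO (u 0) x| :=
          indicator_of_mem (show x ∈ {x : E3 | B * √(T₂ / 2) / 2 ≤ ‖x‖} from h3) _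
        rw [e1]
        exact mul_le_of_le_one_right (abs_nonneg _) (hWg.le_one x)
    have h3 : ∫ r in (0:ℝ)..t₁, ∫ x, |sV (u r) x| * √(gsq (sV (u r)) x) ≤ η := by
      refine le_trans ?_ hη
      have i1 := vdv_ii hF (le_refl (0 : ℝ)) ht0.le htT
      have i2 := vdv_ii hF ht0.le ht₁.2 hT
      have i3 := intervalIntegral.integral_add_adjacent_intervals i1 i2
      have i4 : 0 ≤ ∫ r in t₁..T₂, ∫ x, |sV (u r) x| * √(gsq (sV (u r)) x) :=
        intervalIntegral.integral_nonneg ht₁.2 fun r _ => integral_nonneg fun x => StepJ_nn _ _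
      have i5 : (∫ r in (0:ℝ)..t₁, ∫ x, |sV (u r) x| * √(gsq (sV (u r)) x)) +
          ∫ r in t₁..T₂, ∫ x, |sV (u r) x| * √(gsq (sV (u r)) x) =
          ∫ r in (0:ℝ)..T₂, ∫ x, |sV (u r) x| * √(gsq (sV (u r)) x) := i3
      linarith
    have h4 : ∫ r in (0:ℝ)..t₁, √(∫ x, sO (u r) x ^ 2) ≤ √CO * K * (4 * t₁ ^ (1/4 : ℝ)) := by
      have i1 : IntervalIntegrable (fun r => √(∫ x, sO (u r) x ^ 2)) volume 0 t₁ :=
        sqO_ii hF le_rfl ht0.le htT
      have i2 : IntervalIntegrable (fun r : ℝ => r ^ (-(3/4) : ℝ)) volume 0 t₁ :=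
        intervalIntegral.intervalIntegrable_rpow' (by norm_num)
      have i3 := intervalIntegral.integral_mono_on_of_le_Ioo ht0.le i1 (i2.const_mul (√CO * K))
        (fun r hr => by
          have hr0 : 0 < r := hr.1
          have j1 := hO2 r ⟨hr0, hr.2.le.trans ht₁.2⟩
          refine (Real.sqrt_le_sqrt j1).trans (le_of_eq ?_)
          have j2 : 0 ≤ r ^ (-(3/4) : ℝ) := Real.rpow_nonneg hr0.le _
          have j3 : CO * K ^ 2 * r ^ (-(3/2) : ℝ) = (√CO * K * r ^ (-(3/4) : ℝ)) ^ 2 := by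
            rw [mul_pow, mul_pow, Real.sq_sqrt hCO, ← Real.rpow_natCast (r ^ (-(3/4) : ℝ)) 2,
              ← Real.rpow_mul hr0.le]
            norm_num
          rw [j3, Real.sqrt_sq (by positivity)])
      refine i3.trans (le_of_eq ?_)
      rw [intervalIntegral.integral_const_mul, integral_rpow (Or.inl (by norm_num))]
      have j4 : (-(3/4) : ℝ) + 1 = 1/4 := by norm_num
      rw [j4, Real.zero_rpow (by norm_num)]
      ring
    rw [sub_zero, ← hE] at h1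
    refine h1.trans ?_
    have hq0 : 0 < t₁ ^ (1/4 : ℝ) := Real.rpow_pos_of_pos ht0 _
    set q := t₁ ^ (1/4 : ℝ) with hq
    have hqq : q * q = s1 := by
      rw [hq, hs1, ← Real.rpow_add ht0, Real.sqrt_eq_rpow]
      norm_num
    have h5 : CB / (B * s1) * √E * (∫ r in (0:ℝ)..t₁, √(∫ x, sO (u r) x ^ 2)) ≤
        8 * CB * √CO * K / B * √(E / S2) := by
      have k1 : √E ≤ 2 * q * √(E / S2) := by
        refine Real.sqrt_le_iff.2 ⟨by positivity, ?_⟩
        rw [mul_pow, Real.sq_sqrt (by positivity)]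
        have k2 : (2 * q) ^ 2 = 4 * s1 := by
          rw [← hqq]
          ring
        have k3 : S2 ≤ 4 * s1 := by
          have k4 : T₂ ≤ 2 * t₁ := by linarith [ht₁.1]
          nlinarith
        rw [k2, mul_div_assoc', le_div_iff₀ hS0]
        nlinarith
      calc CB / (B * s1) * √E * (∫ r in (0:ℝ)..t₁, √(∫ x, sO (u r) x ^ 2))
          ≤ CB / (B * s1) * (2 * q * √(E / S2)) * (√CO * K * (4 * q)) := by
            refine mul_le_mul (mul_le_mul_of_nonneg_left k1 (by positivity)) h4 ?_ (by positivity)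
            exact intervalIntegral.integral_nonneg ht0.le fun r _ => Real.sqrt_nonneg _
        _ = 8 * CB * √CO * K / B * √(E / S2) * (q * q / s1) := by
            field_simp
            ring
        _ = 8 * CB * √CO * K / B * √(E / S2) := by
            rw [hqq, div_self hs0.ne', mul_one]
    have h6 : 4 * CB * K / (B * s1) ^ 2 * t₁ = 4 * CB * K / B ^ 2 := by
      rw [← hs2]
      field_simp
    linarith
  linarith

end Pool.Agent.H87.NS
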