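/-
ROW GTe. Theorem G with explicit dependence on `K`. PROOF. The same as NG/GT.lean (thmG), with explicit parameters. Let `c₂ = c1/2`, `c = min (cG/2) (c₂/6)`. Absolute constants `b₀, a₀, q₀, ε₀, r₀ , η₀`
with, for all `K ≥ 1`:
`B = b₀ K` (`b₀ = 4 + 48 CB / c₂`), so `4 CB K / B² ≤ c₂/12` and `B ≥ 4`; `a = a₀ K^(-3/2)`, `√8 a √B √CO K = √8 a₀ √b₀ √CO ≤ c₂/6`; `q = q₀ K³ ≥ 1` with
`(1/a) √(10 B³) (1/q) = a₀⁻¹ √(10 b₀³) / q₀ ≤ c₂/6`, `8 CB √CO K / B (1/q) ≤ c₂/12`; `ε = ε₀ K^(-2/3)`, `√(20 CO ε³) K = √(20 CO ε₀³) ≤ cG`, `ε₀ ≤ 1`; `r = r₀ / K ≤ 1`, `(4 CB √CO K + 4 CB K) r ≤ cG/8`;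
`η = η₀ = min (cG/16) (min (1/8) (c₂/12))`. `ts = r⁴ ℓ²/S²`, `T₂ = q⁴ S² ℓ²`. By GT_ratio: `QG = CG K³ (4 + ε⁻² (log (q⁴/r⁴) + 4 log S))`, `log (q⁴/r⁴) = 4 log (q₀ K⁴ / r₀) ≤ C (1 + log K)`,
`K³ ε⁻² = ε₀⁻² K^(13/3)`, and `K^(13/3) (1 + log K + log S) ≤ 3 K^5 (1 + log S) =: 3 L / ...` (`log K ≤ (3/2) K^(2/3)`), so `8 QG + 1 ≤ C₂ L`, `L = K^5 (1 + log S) ≥ 1`, and
`16 (CG K³ (4 + ε⁻²)) + 1 ≤ C₂ L`. If `∫ |V 0|^(3/2) ≤ exp (-C L)` then `N1 ≤ exp (-(C - C₂) L) ≤ 1`, and for `C` large: `2 √SB (1 + 4 QG) N1^(4/3) ≤ 2 √SB C₂ L exp (-(C - C₂) L) ≤ η₀`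
(`L ≤ exp L`), `mG ≤ exp (C₂ L)^(17/2) (24 SB)^(5/2) exp (-(C - C₂) L) ≤ 1 ≤ K²`, `4 √SB N1^(4/3) ≤ c₂/6`. The rest is the same; at the end use gf_tail with `τ = c₂/6`
(`B √(T₂/2)/2 ≥ S ℓ`, so the tail set is contained in `{x | S ℓ ≤ ‖x‖}`): `∫ |Om t₁| ≤ c₂/6 + c₂/6 + c₂/6 + c₂/12 + c₂/12 + c₂/6 = 5 c₂/6` and thmA applies.
-/
import Pool.Agent.H87.NG.GT
import Pool.Agent.H87.NE.GFt

set_option autoImplicit false

open Set Filter Topology MeasureTheory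
open scoped ContDiff

namespace Pool.Agent.H87.NS

open Pool.Agent.H16

theorem GTe_cube {K : ℝ} (hK : 1 ≤ K) : ∃ κ : ℝ, 1 ≤ κ ∧ κ ^ 3 = K := by
  refine ⟨K ^ (1 / 3 : ℝ), Real.one_le_rpow hK (by norm_num), ?_⟩
  rw [← Real.rpow_natCast, ← Real.rpow_mul (by linarith)]
  norm_num

theorem GTe_eps {CO' cG' : ℝ} (hCO : 0 < CO') (hcG : 0 < cG') : ∃ ε₀ : ℝ, 0 < ε₀ ∧ ∀ κ : ℝ, 1 ≤ κ →
    √(20 * CO' * (ε₀ / κ ^ 2) ^ 3) * κ ^ 3 ≤ cG' := by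
  refine ⟨min 1 (cG' ^ 2 / (20 * CO')), lt_min one_pos (by positivity), ?_⟩
  intro κ hκ
  obtain ⟨e, he⟩ : ∃ e : ℝ, e = min 1 (cG' ^ 2 / (20 * CO')) := ⟨_, rfl⟩
  rw [← he]
  have he0 : 0 < e := by rw [he]; exact lt_min one_pos (by positivity)
  have he1 : e ≤ 1 := by rw [he]; exact min_le_left _ _
  have he2 : e ≤ cG' ^ 2 / (20 * CO') := by
    conv_lhs => rw [he]
    exact min_le_right _ _
  rw [le_div_iff₀ (by positivity)] at he2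
  have hκ0 : 0 < κ := by linarith
  have h3 : √(20 * CO' * (e / κ ^ 2) ^ 3) * κ ^ 3 = √(20 * CO' * e ^ 3) := by
    have h4 : 20 * CO' * e ^ 3 = 20 * CO' * (e / κ ^ 2) ^ 3 * (κ ^ 3) ^ 2 := by
      field_simp
    rw [h4, Real.sqrt_mul (x := 20 * CO' * (e / κ ^ 2) ^ 3) (by positivity), Real.sqrt_sq (by positivity)]
  rw [h3]
  refine Real.sqrt_le_iff.2 ⟨hcG.le, ?_⟩
  have h5 : e ^ 3 ≤ e := by
    have : e ^ 3 = e * e ^ 2 := by ring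
    rw [this]
    exact mul_le_of_le_one_right he0.le (pow_le_one₀ he0.le he1)
  have h6 : 20 * CO' * e ^ 3 ≤ 20 * CO' * e := mul_le_mul_of_nonneg_left h5 (by positivity)
  linarith

/-- the bound of the logarithm of the ratio -/
theorem GTe_log {q r κ M : ℝ} (hκ : 1 ≤ κ) (hM : 1 ≤ M) (hq : 1 ≤ q) (hr : 0 < r) (hr1 : r ≤ 1)
    (h : q ≤ M * κ ^ 12 * r) : 0 ≤ Real.log (q ^ 4 / r ^ 4) ∧ Real.log (q ^ 4 / r ^ 4) ≤ (4 * M + 48) * κ := by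
  have hq0 : 0 < q := by linarith
  have hκ0 : 0 < κ := by linarith
  have hM0 : 0 < M := by linarith
  constructor
  · refine Real.log_nonneg ?_
    rw [one_le_div (by positivity)]
    calc r ^ 4 ≤ 1 := pow_le_one₀ hr.le hr1
      _ ≤ q ^ 4 := one_le_pow₀ hq
  · rw [← div_pow, Real.log_pow]
    have h1 : q / r ≤ M * κ ^ 12 := by rwa [div_le_iff₀ hr]
    have h2 : Real.log (q / r) ≤ Real.log (M * κ ^ 12) := Real.log_le_log (by positivity) h1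
    rw [Real.log_mul hM0.ne' (by positivity), Real.log_pow] at h2
    have h3 := Real.log_le_sub_one_of_pos hM0
    have h4 := Real.log_le_sub_one_of_pos hκ0
    push_cast at h2 ⊢
    nlinarith

theorem GTe_QG {K κ ε₀ q r M : ℝ} (hκ : 1 ≤ κ) (hK : κ ^ 3 = K) (hε : 0 < ε₀) (hM : 1 ≤ M) (hq : 1 ≤ q) (hr : 0 < r) (hr1 : r ≤ 1)
    (h : q ≤ M * κ ^ 12 * r) {S ℓ : ℝ} (hS : 1 ≤ S) (hℓ : 0 < ℓ) :
    0 ≤ QG K (ε₀ / κ ^ 2) (r ^ 4 * ℓ ^ 2 / S ^ 2) (q ^ 4 * S ^ 2 * ℓ ^ 2) ∧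
    8 * QG K (ε₀ / κ ^ 2) (r ^ 4 * ℓ ^ 2 / S ^ 2) (q ^ 4 * S ^ 2 * ℓ ^ 2) + 1 ≤
      (16 * CG * (4 + (4 * M + 52) / ε₀ ^ 2) + 1) * (K ^ 5 * (1 + Real.log S)) ∧
    16 * (CG * K ^ 3 * (4 + 1 / (ε₀ / κ ^ 2) ^ 2)) + 1 ≤
      (16 * CG * (4 + (4 * M + 52) / ε₀ ^ 2) + 1) * (K ^ 5 * (1 + Real.log S)) := by
  have hCG := CG_pos
  have hq0 : 0 < q := by linarith
  have hS0 : 0 < S := by linarith
  have hκ0 : 0 < κ := by linarith
  obtain ⟨hl0, hl1⟩ := GTe_log hκ hM hq hr hr1 h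
  have hlS : 0 ≤ Real.log S := Real.log_nonneg hS
  obtain ⟨e, he⟩ : ∃ e, e = 1 / ε₀ ^ 2 := ⟨_, rfl⟩
  have he0 : 0 < e := by rw [he]; positivity
  have he2 : 1 / (ε₀ / κ ^ 2) ^ 2 = e * κ ^ 4 := by
    rw [he]
    field_simp
  have he3 : (4 * M + 52) / ε₀ ^ 2 = e * (4 * M + 52) := by
    rw [he]
    field_simp
  obtain ⟨l, hl⟩ : ∃ l, l = Real.log (q ^ 4 / r ^ 4) := ⟨_, rfl⟩
  obtain ⟨s, hs⟩ : ∃ s, s = Real.log S := ⟨_, rfl⟩
  have hQ : QG K (ε₀ / κ ^ 2) (r ^ 4 * ℓ ^ 2 / S ^ 2) (q ^ 4 * S ^ 2 * ℓ ^ 2) =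
      CG * κ ^ 9 * (4 + e * κ ^ 4 * (l + 4 * s)) := by
    unfold QG
    rw [GT_ratio hq0 hr hS0 hℓ, ← hl, ← hs, he2, ← hK]
    ring
  rw [← hl] at hl0 hl1
  rw [hQ, he2, he3, ← hs, ← hK]
  rw [← hs] at hlS
  have p9 : κ ^ 9 ≤ κ ^ 15 := pow_le_pow_right₀ hκ (by norm_num)
  have p13 : κ ^ 13 ≤ κ ^ 15 := pow_le_pow_right₀ hκ (by norm_num)
  have p14 : κ ^ 14 ≤ κ ^ 15 := pow_le_pow_right₀ hκ (by norm_num)
  have p15 : 1 ≤ κ ^ 15 := one_le_pow₀ hκ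
  have m1 : CG * κ ^ 9 * (4 + e * κ ^ 4 * (l + 4 * s)) ≤ CG * (4 + e * (4 * M + 52)) * (κ ^ 15 * (1 + s)) := by
    have n1 : κ ^ 9 * (4 + e * κ ^ 4 * (l + 4 * s)) ≤ κ ^ 9 * (4 + e * κ ^ 4 * ((4 * M + 48) * κ + 4 * s)) := by
      refine mul_le_mul_of_nonneg_left ?_ (by positivity)
      have : e * κ ^ 4 * (l + 4 * s) ≤ e * κ ^ 4 * ((4 * M + 48) * κ + 4 * s) :=
        mul_le_mul_of_nonneg_left (by linarith) (by positivity)
      linarith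
    have n2 : κ ^ 9 * (4 + e * κ ^ 4 * ((4 * M + 48) * κ + 4 * s)) =
        4 * κ ^ 9 + e * (4 * M + 48) * κ ^ 14 + 4 * (e * s) * κ ^ 13 := by ring
    have n3 : 4 * κ ^ 9 + e * (4 * M + 48) * κ ^ 14 + 4 * (e * s) * κ ^ 13 ≤
        4 * κ ^ 15 + e * (4 * M + 48) * κ ^ 15 + 4 * (e * s) * κ ^ 15 := by
      have a1 : 0 ≤ e * (4 * M + 48) := by positivity
      have a2 : 0 ≤ 4 * (e * s) := by positivity
      have := mul_le_mul_of_nonneg_left p14 a1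
      have := mul_le_mul_of_nonneg_left p13 a2
      linarith
    have n4 : 4 * κ ^ 15 + e * (4 * M + 48) * κ ^ 15 + 4 * (e * s) * κ ^ 15 ≤
        (4 + e * (4 * M + 52)) * (κ ^ 15 * (1 + s)) := by
      have b1 : 0 ≤ κ ^ 15 * (4 * e) := by positivity
      have b2 : 0 ≤ κ ^ 15 * s * (4 + e * (4 * M + 48)) := by positivity
      nlinarith
    calc CG * κ ^ 9 * (4 + e * κ ^ 4 * (l + 4 * s)) = CG * (κ ^ 9 * (4 + e * κ ^ 4 * (l + 4 * s))) := by ring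
      _ ≤ CG * ((4 + e * (4 * M + 52)) * (κ ^ 15 * (1 + s))) :=
          mul_le_mul_of_nonneg_left (n1.trans (n2.le.trans (n3.trans n4))) hCG.le
      _ = _ := by ring
  have m2 : 1 ≤ κ ^ 15 * (1 + s) := one_le_mul_of_one_le_of_one_le p15 (by linarith)
  have m3 : (κ ^ 3) ^ 5 = κ ^ 15 := by ring
  have m4 : 0 ≤ CG * (4 + e * (4 * M + 52)) * (κ ^ 15 * (1 + s)) := by positivity
  rw [m3]
  refine ⟨by positivity, ?_, ?_⟩
  · linarith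
  · have n1 : CG * (κ ^ 3) ^ 3 * (4 + e * κ ^ 4) ≤ CG * (4 + e * (4 * M + 52)) * (κ ^ 15 * (1 + s)) := by
      have n2 : (κ ^ 3) ^ 3 * (4 + e * κ ^ 4) = 4 * κ ^ 9 + e * κ ^ 13 := by ring
      have n3 : 4 * κ ^ 9 + e * κ ^ 13 ≤ (4 + e * (4 * M + 52)) * κ ^ 15 := by
        have := mul_le_mul_of_nonneg_left p13 he0.le
        have b1 : 0 ≤ κ ^ 15 * (e * (4 * M + 51)) := by positivity
        nlinarith
      have n4 : (4 + e * (4 * M + 52)) * κ ^ 15 ≤ (4 + e * (4 * M + 52)) * (κ ^ 15 * (1 + s)) := by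
        refine mul_le_mul_of_nonneg_left ?_ (by positivity)
        exact le_mul_of_one_le_right (by positivity) (by linarith)
      calc CG * (κ ^ 3) ^ 3 * (4 + e * κ ^ 4) = CG * ((κ ^ 3) ^ 3 * (4 + e * κ ^ 4)) := by ring
        _ ≤ CG * ((4 + e * (4 * M + 52)) * (κ ^ 15 * (1 + s))) :=
            mul_le_mul_of_nonneg_left (n2.le.trans (n3.trans n4)) hCG.le
        _ = _ := by ring
    linarith

/-- The parameters. -/
theorem GTe_par : ∃ C₂ η : ℝ, 1 ≤ C₂ ∧ 0 < η ∧ η ≤ cG / 16 ∧ η ≤ 1 / 8 ∧ η ≤ c1 / 2 / 12 ∧ ∀ K : ℝ, 1 ≤ K →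
    ∃ B a q ε r : ℝ, 4 ≤ B ∧ 0 < a ∧ 1 ≤ q ∧ 0 < ε ∧ 0 < r ∧ r ≤ 1 ∧
    4 * CB * K / B ^ 2 ≤ c1 / 2 / 12 ∧ √8 * a * √B * √CO * K ≤ c1 / 2 / 6 ∧
    1 / a * √(10 * B ^ 3) * (1 / q) ≤ c1 / 2 / 6 ∧ 8 * CB * √CO * K / B * (1 / q) ≤ c1 / 2 / 12 ∧
    √(20 * CO * ε ^ 3) * K ≤ cG ∧ (4 * CB * √CO * K + 4 * CB * K) * r ≤ cG / 8 ∧
    ∀ S ℓ : ℝ, 1 ≤ S → 0 < ℓ →
      0 ≤ QG K ε (r ^ 4 * ℓ ^ 2 / S ^ 2) (q ^ 4 * S ^ 2 * ℓ ^ 2) ∧
      8 * QG K ε (r ^ 4 * ℓ ^ 2 / S ^ 2) (q ^ 4 * S ^ 2 * ℓ ^ 2) + 1 ≤ C₂ * (K ^ 5 * (1 + Real.log S)) ∧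
      16 * (CG * K ^ 3 * (4 + 1 / ε ^ 2)) + 1 ≤ C₂ * (K ^ 5 * (1 + Real.log S)) := by
  have hCO := GT_CO
  have hc1 := GT_c1
  have hCB := CB_pos
  have hcG := cG_pos
  have hCG := CG_pos
  obtain ⟨c, hc⟩ : ∃ c : ℝ, c = c1 / 2 := ⟨_, rfl⟩
  rw [← hc]
  have hc0 : 0 < c := by rw [hc]; linarith
  obtain ⟨ε₀, hε₀, hε₁⟩ := GTe_eps hCO hcG
  obtain ⟨b, hb⟩ : ∃ b : ℝ, b = 4 + 48 * CB / c := ⟨_, rfl⟩
  have hb4 : 4 ≤ b := by
    rw [hb]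
    have : 0 ≤ 48 * CB / c := by positivity
    linarith
  obtain ⟨X₀, hX₀⟩ : ∃ X₀ : ℝ, X₀ = 6 / c * (√8 * √CO * √10) * b ^ 2 := ⟨_, rfl⟩
  have hX₀0 : 0 < X₀ := by
    rw [hX₀]
    have : 0 < b := by linarith
    positivity
  obtain ⟨q₀, hq₀⟩ : ∃ q₀ : ℝ, q₀ = 1 + X₀ * 6 / c + 8 * CB * √CO * 12 / c := ⟨_, rfl⟩
  have hq₀1 : 1 ≤ q₀ := by
    rw [hq₀]
    have h1 : 0 ≤ X₀ * 6 / c := by positivity
    have h2 : 0 ≤ 8 * CB * √CO * 12 / c := by positivity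
    linarith
  obtain ⟨Z₀, hZ₀⟩ : ∃ Z₀ : ℝ, Z₀ = 4 * CB * √CO + 4 * CB := ⟨_, rfl⟩
  have hZ₀0 : 0 < Z₀ := by rw [hZ₀]; positivity
  obtain ⟨r₀, hr₀⟩ : ∃ r₀ : ℝ, r₀ = 1 + 8 * Z₀ / cG := ⟨_, rfl⟩
  have hr₀1 : 1 ≤ r₀ := by
    rw [hr₀]
    have h1 : 0 ≤ 8 * Z₀ / cG := by positivity
    linarith
  have hM : 1 ≤ q₀ * r₀ := one_le_mul_of_one_le_of_one_le hq₀1 hr₀1
  refine ⟨16 * CG * (4 + (4 * (q₀ * r₀) + 52) / ε₀ ^ 2) + 1, min (cG / 16) (min (1 / 8) (c / 12)), ?_, ?_, ?_, ?_, ?_, ?_⟩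
  · have : 0 ≤ 16 * CG * (4 + (4 * (q₀ * r₀) + 52) / ε₀ ^ 2) := by positivity
    linarith
  · exact lt_min (by positivity) (lt_min (by norm_num) (by positivity))
  · exact min_le_left _ _
  · exact (min_le_right _ _).trans (min_le_left _ _)
  · exact (min_le_right _ _).trans (min_le_right _ _)
  intro K hK
  have hK0 : 0 < K := by linarith
  obtain ⟨κ, hκ, hκK⟩ := GTe_cube hK
  have hκ0 : 0 < κ := by linarith
  obtain ⟨B, hB⟩ : ∃ B : ℝ, B = b * K := ⟨_, rfl⟩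
  have hB4 : 4 ≤ B := by
    rw [hB]
    nlinarith
  have hB0 : 0 < B := by linarith
  have hb0 : 0 < b := by linarith
  have hB2 : 4 * CB * K / B ^ 2 ≤ c / 12 := by
    rw [div_le_iff₀ (by positivity)]
    have h1 : 48 * CB / c ≤ b := by rw [hb]; linarith
    rw [div_le_iff₀ hc0] at h1
    have h2 : b * K ≤ B ^ 2 := by
      rw [← hB]
      nlinarith
    have h3 : c * (b * K) ≤ c * B ^ 2 := mul_le_mul_of_nonneg_left h2 hc0.le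
    have h4 : 48 * CB * K ≤ b * c * K := mul_le_mul_of_nonneg_right h1 hK0.le
    linarith
  obtain ⟨a, ha⟩ : ∃ a : ℝ, a = c / 6 / (√8 * √B * √CO * K) := ⟨_, rfl⟩
  have ha0 : 0 < a := by
    rw [ha]
    positivity
  have ha1 : √8 * a * √B * √CO * K ≤ c / 6 := by
    have h1 : 0 < √8 * √B * √CO * K := by positivity
    have h2 : √8 * a * √B * √CO * K = a * (√8 * √B * √CO * K) := by ring
    rw [h2, ha, div_mul_cancel₀ _ h1.ne']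
  obtain ⟨X, hX⟩ : ∃ X : ℝ, X = 1 / a * √(10 * B ^ 3) := ⟨_, rfl⟩
  obtain ⟨Y, hY⟩ : ∃ Y : ℝ, Y = 8 * CB * √CO * K / B := ⟨_, rfl⟩
  have hX0 : 0 ≤ X := by rw [hX]; positivity
  have hY0 : 0 ≤ Y := by rw [hY]; positivity
  have hK3 : 1 ≤ K ^ 3 := one_le_pow₀ hK
  have hXK : X = X₀ * K ^ 3 := by
    have h1 : √B * √(10 * B ^ 3) = √10 * B ^ 2 := by
      rw [← Real.sqrt_mul hB0.le]
      have : B * (10 * B ^ 3) = 10 * (B ^ 2) ^ 2 := by ring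
      rw [this, Real.sqrt_mul (by norm_num), Real.sqrt_sq (by positivity)]
    have h2 : 1 / a = 6 / c * (√8 * √B * √CO * K) := by
      rw [ha]
      field_simp
    rw [hX, h2, hX₀]
    calc 6 / c * (√8 * √B * √CO * K) * √(10 * B ^ 3) = 6 / c * (√8 * √CO * K) * (√B * √(10 * B ^ 3)) := by ring
      _ = 6 / c * (√8 * √CO * K) * (√10 * (b * K) ^ 2) := by rw [h1, hB]
      _ = _ := by ring
  have hYK : Y ≤ 8 * CB * √CO := by
    rw [hY, div_le_iff₀ hB0]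
    have h1 : K ≤ B := by
      rw [hB]
      nlinarith
    exact mul_le_mul_of_nonneg_left h1 (by positivity)
  obtain ⟨q, hq⟩ : ∃ q : ℝ, q = 1 + X * 6 / c + Y * 12 / c := ⟨_, rfl⟩
  have hq1 : 1 ≤ q := by
    rw [hq]
    have h1 : 0 ≤ X * 6 / c := by positivity
    have h2 : 0 ≤ Y * 12 / c := by positivity
    linarith
  have hq0 : 0 < q := by linarith
  have hqX : X * (1 / q) ≤ c / 6 := by
    rw [mul_one_div, div_le_iff₀ hq0, hq]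
    have h2 : 0 ≤ Y * 12 / c := by positivity
    have h3 : c / 6 * (X * 6 / c) = X := by field_simp
    nlinarith
  have hqY : Y * (1 / q) ≤ c / 12 := by
    rw [mul_one_div, div_le_iff₀ hq0, hq]
    have h2 : 0 ≤ X * 6 / c := by positivity
    have h3 : c / 12 * (Y * 12 / c) = Y := by field_simp
    nlinarith
  have hqq : q ≤ q₀ * K ^ 3 := by
    rw [hq, hq₀, hXK]
    have h1 : Y * 12 / c ≤ 8 * CB * √CO * 12 / c :=
      div_le_div_of_nonneg_right (by linarith) hc0.le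
    have h2 : 0 ≤ 8 * CB * √CO * 12 / c := by positivity
    have h3 : X₀ * K ^ 3 * 6 / c = X₀ * 6 / c * K ^ 3 := by ring
    rw [h3]
    nlinarith
  obtain ⟨Z, hZ⟩ : ∃ Z : ℝ, Z = 4 * CB * √CO * K + 4 * CB * K := ⟨_, rfl⟩
  have hZ0 : 0 < Z := by rw [hZ]; positivity
  have hZK : Z = Z₀ * K := by rw [hZ, hZ₀]; ring
  obtain ⟨r, hr⟩ : ∃ r : ℝ, r = min 1 (cG / 8 / Z) := ⟨_, rfl⟩
  have hr0 : 0 < r := by rw [hr]; exact lt_min one_pos (by positivity)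
  have hr1 : r ≤ 1 := by rw [hr]; exact min_le_left _ _
  have hrr : 1 ≤ r₀ * K * r := by
    rcases min_choice 1 (cG / 8 / Z) with h | h
    · rw [hr, h, mul_one]
      exact one_le_mul_of_one_le_of_one_le hr₀1 hK
    · rw [hr, h, hZK, hr₀]
      have h1 : (1 + 8 * Z₀ / cG) * K * (cG / 8 / (Z₀ * K)) = cG / (8 * Z₀) + 1 := by
        field_simp
      rw [h1]
      have : 0 ≤ cG / (8 * Z₀) := by positivity
      linarith
  have hqr : q ≤ q₀ * r₀ * κ ^ 12 * r := by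
    have h1 : κ ^ 12 = K ^ 3 * K := by rw [← hκK]; ring
    rw [h1]
    have h2 : 0 ≤ q₀ * K ^ 3 := by positivity
    calc q ≤ q₀ * K ^ 3 := hqq
      _ ≤ q₀ * K ^ 3 * (r₀ * K * r) := le_mul_of_one_le_right h2 hrr
      _ = _ := by ring
  refine ⟨B, a, q, ε₀ / κ ^ 2, r, hB4, ha0, hq1, by positivity, hr0, hr1, hB2, ha1, ?_, ?_, ?_, ?_, ?_⟩
  · rw [← hX]; exact hqX
  · rw [← hY]; exact hqY
  · have h1 := hε₁ κ hκ
    rwa [hκK] at h1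
  · rw [← hZ]
    have h1 : r ≤ cG / 8 / Z := by rw [hr]; exact min_le_right _ _
    rw [le_div_iff₀ hZ0] at h1
    linarith
  · intro S ℓ hS hℓ
    exact GTe_QG hκ hκK hε₀ hM hq1 hr0 hr1 hqr hS hℓ

theorem GTe_exp {y A : ℝ} (_hy : 0 < y) (hA : A ≤ y) : A * Real.exp (-y) ≤ 1 := by
  have h1 : y ≤ Real.exp y := by
    have := Real.add_one_le_exp y
    linarith
  have h2 : Real.exp (-y) * Real.exp y = 1 := by
    rw [← Real.exp_add]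
    simp
  have h3 := Real.exp_pos (-y)
  nlinarith

theorem thmGe : ∃ C c : ℝ, 0 < C ∧ 0 < c ∧ ∀ (K S ℓ T : ℝ) (u : ℝ → E3 → E3) (p : ℝ → E3 → ℝ),
    1 ≤ K → 1 ≤ S → 0 < ℓ → IsHInfAxisymNS T u p → Integrable (sO (u 0)) → ∫ x, |sO (u 0) x| ≤ K →
    ∫ x in {x : E3 | S * ℓ ≤ ‖x‖}, |sO (u 0) x| ≤ c → (∀ z, ∫ x in Metric.ball (axp z) ℓ, |sO (u 0) x| ≤ c) →
    ∫ x, ‖u 0 x‖ ^ 2 ≤ S * ℓ → Integrable (fun x => |sV (u 0) x| ^ (3/2 : ℝ)) →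
    ∫ x, |sV (u 0) x| ^ (3/2 : ℝ) ≤ Real.exp (-C * K ^ 5 * (1 + Real.log S)) →
    ∃ C' : ℝ, ∀ t ∈ Ico 0 T, ∀ x, |sV (u t) x| ≤ C' := by
  have hCO := GT_CO
  have hc1 := GT_c1
  have hCB := CB_pos
  have hcG := cG_pos
  have hSB := SB_pos
  have hCG := CG_pos
  have hs : 0 < √SB := Real.sqrt_pos.2 hSB
  obtain ⟨C₂, η, hC₂, hη, k7, k8', k9, hpar⟩ := GTe_par
  obtain ⟨A₃, hA3⟩ : ∃ A₃ : ℝ, A₃ = (24 * SB) ^ (5/2 : ℝ) := ⟨_, rfl⟩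
  have hA30 : 0 < A₃ := by
    rw [hA3]
    positivity
  obtain ⟨D, hD⟩ : ∃ D : ℝ, D = 1 + 17 / 2 * C₂ + A₃ + 2 * √SB * C₂ / η + 4 * √SB / (c1 / 2 / 6) := ⟨_, rfl⟩
  have hD1 : 0 ≤ 2 * √SB * C₂ / η := by positivity
  have hD2 : 0 ≤ 4 * √SB / (c1 / 2 / 6) := by positivity
  have hD0 : 1 ≤ D := by
    rw [hD]
    linarith
  refine ⟨C₂ + D, min (cG / 2) (c1 / 2 / 6), by linarith, lt_min (by positivity) (by positivity), ?_⟩
  intro K S ℓ T u p hK hS hℓ h hO1 hO2 htail hball' hE hV1 hV2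
  have hball : ∀ z, ∫ x in Metric.ball (axp z) ℓ, |sO (u 0) x| ≤ cG / 2 := fun z => (hball' z).trans (min_le_left _ _)
  have hK0 : 0 < K := by linarith
  have hS0 : 0 < S := by linarith
  obtain ⟨B, a, q, ε, r, hB4, ha, hq1, hε, hr, hr1, k1, k2, k3, k4, k5, k6, hQ⟩ := hpar K hK
  have hB0 : 0 < B := by linarith
  have hq0 : 0 < q := by linarith
  have k8 : η ≤ K / 8 := by linarith
  obtain ⟨e0, e1, e2⟩ := hQ S ℓ hS hℓ
  obtain ⟨ts, hts⟩ : ∃ ts : ℝ, ts = r ^ 4 * ℓ ^ 2 / S ^ 2 := ⟨_, rfl⟩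
  obtain ⟨T₂, hT₂⟩ : ∃ T₂ : ℝ, T₂ = q ^ 4 * S ^ 2 * ℓ ^ 2 := ⟨_, rfl⟩
  rw [← hts, ← hT₂] at e0 e1
  obtain ⟨L, hL⟩ : ∃ L : ℝ, L = K ^ 5 * (1 + Real.log S) := ⟨_, rfl⟩
  rw [← hL] at e1 e2
  have hlS : 0 ≤ Real.log S := Real.log_nonneg hS
  have hL1 : 1 ≤ L := by
    rw [hL]
    exact one_le_mul_of_one_le_of_one_le (one_le_pow₀ hK) (by linarith)
  have hts0 : 0 < ts := by rw [hts]; positivity
  have hT₂0 : 0 < T₂ := by rw [hT₂]; positivity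
  have hV0 : 0 ≤ ∫ x, |sV (u 0) x| ^ (3/2 : ℝ) := integral_nonneg fun x => by positivity
  have hN0 : 0 ≤ N1 u K ε ts T₂ := by
    unfold N1
    exact mul_nonneg hV0 (Real.exp_pos _).le
  have hN : N1 u K ε ts T₂ ≤ Real.exp (-(D * L)) := by
    unfold N1
    calc (∫ x, |sV (u 0) x| ^ (3/2 : ℝ)) * Real.exp (8 * QG K ε ts T₂ + 1)
        ≤ Real.exp (-(C₂ + D) * K ^ 5 * (1 + Real.log S)) * Real.exp (C₂ * L) :=
          mul_le_mul hV2 (Real.exp_le_exp.2 e1) (Real.exp_pos _).le (Real.exp_pos _).le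
      _ = Real.exp (-(D * L)) := by
          rw [← Real.exp_add, hL]
          congr 1
          ring
  have hL0 : 0 < L := by linarith
  have hN1 : N1 u K ε ts T₂ ≤ 1 := by
    refine hN.trans (Real.exp_le_one_iff.2 ?_)
    have : 0 ≤ D * L := by positivity
    linarith
  have hN43 : N1 u K ε ts T₂ ^ (4/3 : ℝ) ≤ N1 u K ε ts T₂ := GT_th hN0 hN1 (by norm_num)
  have hN83 : N1 u K ε ts T₂ ^ (8/3 : ℝ) ≤ N1 u K ε ts T₂ := GT_th hN0 hN1 (by norm_num)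
  have hs0 : 0 ≤ √SB := Real.sqrt_nonneg _
  have hmG0 : 0 ≤ mG u K ε ts T₂ := by
    unfold mG
    rw [← hA3]
    have h1 := Real.exp_pos (16 * (CG * K ^ 3 * (4 + 1 / ε ^ 2)) + 1)
    have h2 := Real.rpow_nonneg hN0 (8/3 : ℝ)
    positivity
  -- smallness
  have hθ2 : 2 * √SB * (C₂ * L) * Real.exp (-(D * L)) ≤ η := by
    have h1 : D * L = L + (D - 1) * L := by ring
    have h2 : L * Real.exp (-L) ≤ 1 := GTe_exp hL0 le_rfl
    have h3 : 2 * √SB * C₂ / η ≤ (D - 1) * L := by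
      have h4 : 2 * √SB * C₂ / η ≤ D - 1 := by
        rw [hD]
        linarith
      refine h4.trans (le_mul_of_one_le_right (by linarith) hL1)
    have h5 : 2 * √SB * C₂ / η * Real.exp (-((D - 1) * L)) ≤ 1 :=
      GTe_exp (lt_of_lt_of_le (by positivity) h3) h3
    rw [h1, neg_add, Real.exp_add]
    have h6 : 2 * √SB * C₂ * Real.exp (-((D - 1) * L)) ≤ η := by
      have h7 := mul_le_mul_of_nonneg_left h5 hη.le
      have h8 : η * (2 * √SB * C₂ / η * Real.exp (-((D - 1) * L))) = 2 * √SB * C₂ * Real.exp (-((D - 1) * L)) := by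
        field_simp
      rw [h8, mul_one] at h7
      exact h7
    calc 2 * √SB * (C₂ * L) * (Real.exp (-L) * Real.exp (-((D - 1) * L)))
        = (L * Real.exp (-L)) * (2 * √SB * C₂ * Real.exp (-((D - 1) * L))) := by ring
      _ ≤ 1 * η := mul_le_mul h2 h6 (by positivity) zero_le_one
      _ = η := one_mul η
  have hθ3 : Real.exp (C₂ * L) ^ (17/2 : ℝ) * A₃ * Real.exp (-(D * L)) ≤ K ^ 2 := by
    have h1 : 1 ≤ K ^ 2 := one_le_pow₀ hK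
    refine le_trans ?_ h1
    have h2 : Real.exp (C₂ * L) ^ (17/2 : ℝ) = Real.exp (17 / 2 * C₂ * L) := by
      rw [← Real.exp_mul]
      congr 1
      ring
    rw [h2]
    have h3 : D * L = 17 / 2 * C₂ * L + (D - 17 / 2 * C₂) * L := by ring
    rw [h3, neg_add, Real.exp_add]
    have h4 : A₃ ≤ (D - 17 / 2 * C₂) * L := by
      have h5 : A₃ ≤ D - 17 / 2 * C₂ := by
        rw [hD]
        linarith
      exact h5.trans (le_mul_of_one_le_right (by linarith) hL1)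
    have h6 := GTe_exp (lt_of_lt_of_le hA30 h4) h4
    have h7 : Real.exp (17 / 2 * C₂ * L) * Real.exp (-(17 / 2 * C₂ * L)) = 1 := by
      rw [← Real.exp_add]
      simp
    calc Real.exp (17 / 2 * C₂ * L) * A₃ * (Real.exp (-(17 / 2 * C₂ * L)) * Real.exp (-((D - 17 / 2 * C₂) * L)))
        = (Real.exp (17 / 2 * C₂ * L) * Real.exp (-(17 / 2 * C₂ * L))) *
          (A₃ * Real.exp (-((D - 17 / 2 * C₂) * L))) := by ring
      _ ≤ 1 := by rw [h7, one_mul]; exact h6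
  have hθ4 : 4 * √SB * Real.exp (-(D * L)) ≤ c1 / 2 / 6 := by
    have hc6 : 0 < c1 / 2 / 6 := by positivity
    have h3 : 4 * √SB / (c1 / 2 / 6) ≤ D * L := by
      have h4 : 4 * √SB / (c1 / 2 / 6) ≤ D := by
        rw [hD]
        linarith
      exact h4.trans (le_mul_of_one_le_right (by linarith) hL1)
    have h5 := GTe_exp (lt_of_lt_of_le (by positivity) h3) h3
    have h7 := mul_le_mul_of_nonneg_left h5 hc6.le
    have h8 : c1 / 2 / 6 * (4 * √SB / (c1 / 2 / 6) * Real.exp (-(D * L))) = 4 * √SB * Real.exp (-(D * L)) := by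
      field_simp
    rw [h8, mul_one] at h7
    exact h7
  have hrS : √(S * ℓ) * √(ℓ / S) = ℓ := by
    rw [← Real.sqrt_mul (by positivity)]
    have : S * ℓ * (ℓ / S) = ℓ ^ 2 := by field_simp
    rw [this, Real.sqrt_sq hℓ.le]
  have hts14 : ts ^ (1/4 : ℝ) = r * √(ℓ / S) := by
    have h1 : ts = (r * √(ℓ / S)) ^ 4 := by
      have h2 : √(ℓ / S) ^ 4 = (ℓ / S) ^ 2 := by
        have : √(ℓ / S) ^ 4 = (√(ℓ / S) ^ 2) ^ 2 := by ring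
        rw [this, Real.sq_sqrt (by positivity)]
      rw [mul_pow, h2, hts]
      field_simp
    rw [h1, ← Real.rpow_natCast, ← Real.rpow_mul (by positivity)]
    norm_num
  have H : GH T u p K ℓ ts ε η T₂ := by
    refine ⟨h, hK, hℓ, hts0, ?_, hε, ?_, ⟨hO1, hO2⟩, hball, hV1, k5, ?_, k7, k8, ?_, ?_⟩
    · rw [hts, div_le_iff₀ (by positivity)]
      have h1 : r ^ 4 ≤ 1 := pow_le_one₀ hr.le hr1
      have h2 : (1 : ℝ) ≤ S ^ 2 := one_le_pow₀ hS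
      have h3 : 0 < ℓ ^ 2 := by positivity
      nlinarith
    · rw [hts, hT₂, div_le_iff₀ (by positivity)]
      have h1 : r ^ 4 ≤ 1 := pow_le_one₀ hr.le hr1
      have h2 : (1 : ℝ) ≤ S ^ 2 := one_le_pow₀ hS
      have h4 : (1 : ℝ) ≤ q ^ 4 := one_le_pow₀ hq1
      have h3 : 0 < ℓ ^ 2 := by positivity
      have h5 : 1 ≤ q ^ 4 * S ^ 2 * S ^ 2 := by
        have h6 : 1 ≤ q ^ 4 * S ^ 2 := one_le_mul_of_one_le_of_one_le h4 h2
        exact one_le_mul_of_one_le_of_one_le h6 h2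
      calc r ^ 4 * ℓ ^ 2 ≤ 1 * ℓ ^ 2 := mul_le_mul_of_nonneg_right h1 h3.le
        _ ≤ (q ^ 4 * S ^ 2 * S ^ 2) * ℓ ^ 2 := mul_le_mul_of_nonneg_right h5 h3.le
        _ = q ^ 4 * S ^ 2 * ℓ ^ 2 * S ^ 2 := by ring
    · have h0 : 1 + 4 * QG K ε ts T₂ ≤ C₂ * L := by linarith
      calc 2 * √SB * (1 + 4 * QG K ε ts T₂) * N1 u K ε ts T₂ ^ (4/3 : ℝ)
          ≤ 2 * √SB * (C₂ * L) * Real.exp (-(D * L)) := by
            refine mul_le_mul (mul_le_mul_of_nonneg_left h0 (by positivity)) (hN43.trans hN)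
              (Real.rpow_nonneg hN0 _) (by positivity)
        _ ≤ η := hθ2
    · unfold mG
      rw [← hA3]
      refine le_trans ?_ hθ3
      refine mul_le_mul (mul_le_mul_of_nonneg_right ?_ hA30.le) (hN83.trans hN) (Real.rpow_nonneg hN0 _)
        (by positivity)
      exact Real.rpow_le_rpow (Real.exp_pos _).le (Real.exp_le_exp.2 e2) (by norm_num)
    · have h1 : √(∫ x, ‖u 0 x‖ ^ 2) ≤ √(S * ℓ) := Real.sqrt_le_sqrt hE
      rw [hts14]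
      have h2 : CB / ℓ * √(∫ x, ‖u 0 x‖ ^ 2) * (4 * √CO * K * (r * √(ℓ / S))) ≤
          4 * CB * √CO * K * r := by
        calc CB / ℓ * √(∫ x, ‖u 0 x‖ ^ 2) * (4 * √CO * K * (r * √(ℓ / S)))
            ≤ CB / ℓ * √(S * ℓ) * (4 * √CO * K * (r * √(ℓ / S))) := by
              refine mul_le_mul_of_nonneg_right (mul_le_mul_of_nonneg_left h1 (by positivity)) (by positivity)
          _ = CB / ℓ * (4 * √CO * K * r) * (√(S * ℓ) * √(ℓ / S)) := by ring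
          _ = 4 * CB * √CO * K * r := by
              rw [hrS]
              field_simp
      have h3 : 4 * CB * K / ℓ ^ 2 * ts ≤ 4 * CB * K * r := by
        have h4 : ts ≤ r * ℓ ^ 2 := by
          rw [hts, div_le_iff₀ (by positivity)]
          have h5 : r ^ 4 ≤ r := by
            have : r ^ 4 = r * r ^ 3 := by ring
            rw [this]
            exact mul_le_of_le_one_right hr.le (pow_le_one₀ hr.le hr1)
          have h6 : (1 : ℝ) ≤ S ^ 2 := one_le_pow₀ hS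
          calc r ^ 4 * ℓ ^ 2 ≤ r * ℓ ^ 2 := mul_le_mul_of_nonneg_right h5 (by positivity)
            _ ≤ r * ℓ ^ 2 * S ^ 2 := le_mul_of_one_le_right (by positivity) h6
        calc 4 * CB * K / ℓ ^ 2 * ts ≤ 4 * CB * K / ℓ ^ 2 * (r * ℓ ^ 2) :=
              mul_le_mul_of_nonneg_left h4 (by positivity)
          _ = 4 * CB * K * r := by field_simp
      linarith
  have F := flow_of h
  rcases le_or_gt T 0 with hT0 | hT0
  · exact ⟨0, fun t ht => absurd ht.1 (not_le.2 (ht.2.trans_le hT0))⟩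
  rcases le_or_gt T T₂ with hTT | hTT
  · refine bounded_of_V4 F (a := T / 2) (M := mG u K ε ts T₂ * (T / 2) ^ (-(5/2) : ℝ)) (by linarith)
      (by linarith) ?_
    intro t ht
    have ht0 : 0 < t := by linarith [ht.1]
    have h4 := (gp_all H ht0.le ht.2 (ht.2.le.trans hTT)).2.2.2 t ⟨ht0, le_rfl⟩
    refine h4.trans (mul_le_mul_of_nonneg_left ?_ hmG0)
    exact Real.rpow_le_rpow_of_nonpos (by linarith) ht.1 (by norm_num)
  · obtain ⟨g1, g2, g3, g4⟩ := gp_all H hT₂0.le hTT le_rfl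
    obtain ⟨g11, g12, g13⟩ := g1
    have hsup : ∫ x in {x : E3 | B * √(T₂ / 2) / 2 ≤ ‖x‖}, |sO (u 0) x| ≤ c1 / 2 / 6 := by
      have hsub : {x : E3 | B * √(T₂ / 2) / 2 ≤ ‖x‖} ⊆ {x : E3 | S * ℓ ≤ ‖x‖} := by
        intro x hx
        rw [Set.mem_ofPred_eq] at hx ⊢
        refine le_trans ?_ hx
        have h1 : S * ℓ / 2 ≤ √(T₂ / 2) := by
          refine Real.le_sqrt_of_sq_le ?_
          rw [hT₂]
          have h4 : (1 : ℝ) ≤ q ^ 4 := one_le_pow₀ hq1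
          have h5 : 0 < S ^ 2 * ℓ ^ 2 := by positivity
          have h6 : (S * ℓ / 2) ^ 2 = 1 / 4 * (S ^ 2 * ℓ ^ 2) := by ring
          rw [h6]
          nlinarith
        have h3 : 4 * √(T₂ / 2) ≤ B * √(T₂ / 2) := mul_le_mul_of_nonneg_right hB4 (Real.sqrt_nonneg _)
        linarith
      refine (setIntegral_mono_set hO1.abs.integrableOn (ae_of_all _ fun y => abs_nonneg _)
        (LE.le.eventuallyLE hsub)).trans (htail.trans (min_le_right _ _))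
    obtain ⟨t₁, ht₁, hf⟩ := gf_tail h ha hB0 hK0.le hT₂0 hTT
      (fun t ht => ⟨(g11 t ht).1, (g11 t ht).2.trans (by linarith)⟩) g12 g3 hsup
    have ht10 : 0 ≤ t₁ := by linarith [ht₁.1]
    have hET : √((∫ x, ‖u 0 x‖ ^ 2) / √T₂) ≤ 1 / q := by
      have h1 : √T₂ = q ^ 2 * (S * ℓ) := by
        rw [hT₂]
        have : q ^ 4 * S ^ 2 * ℓ ^ 2 = (q ^ 2 * (S * ℓ)) ^ 2 := by ring
        rw [this, Real.sqrt_sq (by positivity)]
      rw [h1]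
      refine Real.sqrt_le_iff.2 ⟨by positivity, ?_⟩
      rw [div_le_iff₀ (by positivity)]
      refine hE.trans (le_of_eq ?_)
      field_simp
    have hfin : ∫ x, |sO (u t₁) x| ≤ c1 / 2 * (5 / 6) := by
      have j1 : 1 / a * √(10 * B ^ 3) * √((∫ x, ‖u 0 x‖ ^ 2) / √T₂) ≤ c1 / 2 / 6 :=
        (mul_le_mul_of_nonneg_left hET (by positivity)).trans k3
      have j2 : 8 * CB * √CO * K / B * √((∫ x, ‖u 0 x‖ ^ 2) / √T₂) ≤ c1 / 2 / 12 :=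
        (mul_le_mul_of_nonneg_left hET (by positivity)).trans k4
      linarith
    have hV43 : 4 * √SB * (∫ x, |sV (u t₁) x| ^ (3/2 : ℝ)) ^ (4/3 : ℝ) ≤ c1 / 2 / 6 := by
      have h1 := (g2 t₁ ⟨ht10, ht₁.2⟩).2
      have h2 : (∫ x, |sV (u t₁) x| ^ (3/2 : ℝ)) ^ (4/3 : ℝ) ≤ N1 u K ε ts T₂ ^ (4/3 : ℝ) :=
        Real.rpow_le_rpow (integral_nonneg fun x => by positivity) h1 (by norm_num)
      calc 4 * √SB * (∫ x, |sV (u t₁) x| ^ (3/2 : ℝ)) ^ (4/3 : ℝ) ≤ 4 * √SB * Real.exp (-(D * L)) :=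
            mul_le_mul_of_nonneg_left (h2.trans (hN43.trans hN)) (by positivity)
        _ ≤ c1 / 2 / 6 := hθ4
    refine thmA F ht10 (ht₁.2.trans_lt hTT) (g11 t₁ ⟨ht10, ht₁.2⟩).1 (g2 t₁ ⟨ht10, ht₁.2⟩).1 ?_
    linarith

end Pool.Agent.H87.NS
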