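/-
ROW VRe. vortex_ring with an explicit threshold. PROOF. As NV/VRing.lean with thmGe instead of thmG: `K = 1 + 52 A`, `X = R/a ≥ exp (C (1+A)^6) ≥ 8`, `S = 4 + 52 C_E C_L A² (1 + log X)`, `ℓ = R/2`. The tail and ball
integrals vanish (VRing_far, VRing_ball, sw_off). The threshold: with `l = log X ≥ C (1+A)^6` one needs `208 A^(3/2) X^(-1/2) ≤ exp (-C₁ K^5 (1 + log S))` (if `A = 0` the left side is `0`), i.e. it is enough that
`log 208 + (3/2) A + C₁ 53^5 (1+A)^5 (1 + log S) ≤ l/2` (`log A ≤ A`), where `S ≤ C₃ (1+A)² (1 + l)`, `log S ≤ C₃ + 2 A + log (1 + l)` (`log (1+A) ≤ A`), and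
`(1+A)^5 (1 + log S) ≤ (C₃ + 3) (1+A)^6 + (1+A)^5 log (1+l)`; the first part is `≤ (C₃+3) l / C`, the second is `≤ (l/C)^(5/6) log (1+l) ≤ l C^(-5/6) · 7` (`log (1+l) ≤ 6 (1+l)^(1/6) ≤ 7 l^(1/6)` for `l ≥ 1`,
`Real.log_le_rpow_div`). So everything is `≤ l/2` for `C` large.
-/
import Pool.Agent.H87.NE.GTe
import Pool.Agent.H87.NV.VRing

set_option autoImplicit false

open Set Filter Topology MeasureTheory
open scoped ContDiff

namespace Pool.Agent.H87.NS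

open Pool.Agent.H16

theorem VRe_thr {C₁ c : ℝ} (hC₁ : 0 < C₁) (hc : 0 ≤ c) : ∃ C : ℝ, 8 ≤ C ∧
    ∀ A X : ℝ, 0 < A → 0 < X → C * (1 + A) ^ 6 ≤ Real.log X →
      208 * A ^ (3/2 : ℝ) * X ^ (-(1/2) : ℝ) ≤
        Real.exp (-C₁ * (1 + 52 * A) ^ 5 * (1 + Real.log (4 + c * A ^ 2 * (1 + Real.log X)))) := by
  obtain ⟨D, hD⟩ : ∃ D : ℝ, D = 2 * (210 + C₁ * 52 ^ 5 * (13 + c)) := ⟨_, rfl⟩
  have hD1 : 420 ≤ D := by
    rw [hD]
    have : 0 ≤ C₁ * 52 ^ 5 * (13 + c) := by positivity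
    linarith
  have hD0 : 0 < D := by linarith
  have hD8 : (8 : ℝ) ≤ D ^ 6 := by
    have h1 : (2 : ℝ) ^ 6 ≤ D ^ 6 := pow_le_pow_left₀ (by norm_num) (by linarith) 6
    norm_num at h1
    linarith
  refine ⟨D ^ 6, hD8, ?_⟩
  intro A X hA hX hl
  obtain ⟨w, hw⟩ : ∃ w : ℝ, w = 1 + A := ⟨_, rfl⟩
  have hw1 : 1 ≤ w := by linarith
  have hw0 : 0 < w := by linarith
  have hw6 : 1 ≤ w ^ 6 := one_le_pow₀ hw1
  rw [← hw] at hl
  obtain ⟨l, hle⟩ : ∃ l : ℝ, l = Real.log X := ⟨_, rfl⟩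
  rw [← hle] at hl ⊢
  have hl0 : 0 < l := lt_of_lt_of_le (by positivity) hl
  obtain ⟨s, hs0, hs⟩ : ∃ s : ℝ, 0 < s ∧ s ^ 6 = l := by
    refine ⟨l ^ (1/6 : ℝ), Real.rpow_pos_of_pos hl0 _, ?_⟩
    rw [← Real.rpow_natCast, ← Real.rpow_mul hl0.le]
    norm_num
  have hDw : D * w ≤ s := by
    have h1 : (D * w) ^ 6 ≤ s ^ 6 := by
      rw [mul_pow, hs]
      exact hl
    exact le_of_pow_le_pow_left₀ (by norm_num) hs0.le h1
  have hw5 : D * w ^ 5 ≤ s ^ 5 := by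
    have h1 : (D * w) ^ 5 ≤ s ^ 5 := pow_le_pow_left₀ (by positivity) hDw 5
    have h2 : D * w ^ 5 ≤ (D * w) ^ 5 := by
      rw [mul_pow]
      refine mul_le_mul_of_nonneg_right ?_ (by positivity)
      exact le_self_pow₀ (by linarith) (by norm_num)
    exact h2.trans h1
  have hw6' : D * w ^ 6 ≤ l := by
    refine le_trans ?_ hl
    refine mul_le_mul_of_nonneg_right ?_ (by positivity)
    exact le_self_pow₀ (by linarith) (by norm_num)
  have hlog1 : Real.log (1 + l) ≤ 6 * s := by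
    have h1 : 1 + l ≤ (1 + s) ^ 6 := by
      rw [← hs]
      have : 0 ≤ 6 * s + 15 * s ^ 2 + 20 * s ^ 3 + 15 * s ^ 4 + 6 * s ^ 5 := by positivity
      nlinarith
    have h2 : Real.log (1 + l) ≤ Real.log ((1 + s) ^ 6) := Real.log_le_log (by linarith) h1
    rw [Real.log_pow] at h2
    have h3 : Real.log (1 + s) ≤ s := by
      have := Real.log_le_sub_one_of_pos (show 0 < 1 + s by linarith)
      linarith
    push_cast at h2
    linarith
  obtain ⟨S, hS⟩ : ∃ S : ℝ, S = 4 + c * A ^ 2 * (1 + l) := ⟨_, rfl⟩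
  rw [← hS]
  have hS0 : 4 ≤ S := by
    rw [hS]
    have : 0 ≤ c * A ^ 2 * (1 + l) := by positivity
    linarith
  have hSle : S ≤ (4 + c) * w ^ 2 * (1 + l) := by
    rw [hS]
    have h1 : A ^ 2 ≤ w ^ 2 := pow_le_pow_left₀ hA.le (by linarith) 2
    have h2 : 1 ≤ w ^ 2 := one_le_pow₀ hw1
    have h3 : c * A ^ 2 * (1 + l) ≤ c * w ^ 2 * (1 + l) := by
      refine mul_le_mul_of_nonneg_right (mul_le_mul_of_nonneg_left h1 hc) (by linarith)
    have h4 : 1 ≤ w ^ 2 * (1 + l) := by nlinarith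
    nlinarith
  have hlogS : Real.log S ≤ (4 + c) + 2 * w + 6 * s := by
    have h1 : Real.log S ≤ Real.log ((4 + c) * w ^ 2 * (1 + l)) :=
      Real.log_le_log (by linarith) hSle
    rw [Real.log_mul (by positivity) (by positivity), Real.log_mul (by positivity) (by positivity),
      Real.log_pow] at h1
    have h2 := Real.log_le_sub_one_of_pos (show 0 < 4 + c by linarith)
    have h3 := Real.log_le_sub_one_of_pos hw0
    push_cast at h1
    linarith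
  have hlogS0 : 0 ≤ Real.log S := Real.log_nonneg (by linarith)
  have hK : (1 + 52 * A) ^ 5 ≤ 52 ^ 5 * w ^ 5 := by
    rw [← mul_pow]
    exact pow_le_pow_left₀ (by linarith) (by rw [hw]; linarith) 5
  have hmain : C₁ * (1 + 52 * A) ^ 5 * (1 + Real.log S) ≤
      C₁ * 52 ^ 5 * ((7 + c) * w ^ 6 + 6 * (s * w ^ 5)) := by
    have h1 : C₁ * (1 + 52 * A) ^ 5 * (1 + Real.log S) ≤
        C₁ * (52 ^ 5 * w ^ 5) * (1 + Real.log S) :=
      mul_le_mul_of_nonneg_right (mul_le_mul_of_nonneg_left hK hC₁.le) (by linarith)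
    have h2 : 1 + Real.log S ≤ (7 + c) * w + 6 * s := by
      nlinarith
    have h3 : C₁ * (52 ^ 5 * w ^ 5) * (1 + Real.log S) ≤
        C₁ * (52 ^ 5 * w ^ 5) * ((7 + c) * w + 6 * s) :=
      mul_le_mul_of_nonneg_left h2 (by positivity)
    have e : C₁ * (52 ^ 5 * w ^ 5) * ((7 + c) * w + 6 * s) =
        C₁ * 52 ^ 5 * ((7 + c) * w ^ 6 + 6 * (s * w ^ 5)) := by ring
    rw [e] at h3
    exact h1.trans h3
  have hsw : D * (s * w ^ 5) ≤ l := by
    have h1 : s * (D * w ^ 5) ≤ s * s ^ 5 := mul_le_mul_of_nonneg_left hw5 hs0.le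
    have e1 : s * (D * w ^ 5) = D * (s * w ^ 5) := by ring
    have e2 : s * s ^ 5 = l := by rw [← hs]; ring
    rw [e1, e2] at h1
    exact h1
  have hA6 : A ≤ w ^ 6 := by
    have h1 : w ≤ w ^ 6 := le_self_pow₀ hw1 (by norm_num)
    linarith
  have hlogA : Real.log A ≤ A := by
    have := Real.log_le_sub_one_of_pos hA
    linarith
  have hlog208 : Real.log 208 ≤ 207 := by
    have := Real.log_le_sub_one_of_pos (show (0 : ℝ) < 208 by norm_num)
    linarith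
  have hfin : 207 + 3/2 * A + C₁ * (1 + 52 * A) ^ 5 * (1 + Real.log S) ≤ l / 2 := by
    have h1 : 207 + 3/2 * A ≤ 210 * w ^ 6 := by nlinarith
    have h2 : D * (210 * w ^ 6 + C₁ * 52 ^ 5 * ((7 + c) * w ^ 6 + 6 * (s * w ^ 5))) ≤ D * (l / 2) := by
      have g1 : 210 * (D * w ^ 6) ≤ 210 * l := mul_le_mul_of_nonneg_left hw6' (by norm_num)
      have g2 : C₁ * 52 ^ 5 * (7 + c) * (D * w ^ 6) ≤ C₁ * 52 ^ 5 * (7 + c) * l :=
        mul_le_mul_of_nonneg_left hw6' (by positivity)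
      have g3 : C₁ * 52 ^ 5 * 6 * (D * (s * w ^ 5)) ≤ C₁ * 52 ^ 5 * 6 * l :=
        mul_le_mul_of_nonneg_left hsw (by positivity)
      have e1 : D * (l / 2) = 210 * l + C₁ * 52 ^ 5 * (7 + c) * l + C₁ * 52 ^ 5 * 6 * l := by
        rw [hD]
        ring
      have e2 : D * (210 * w ^ 6 + C₁ * 52 ^ 5 * ((7 + c) * w ^ 6 + 6 * (s * w ^ 5))) =
          210 * (D * w ^ 6) + C₁ * 52 ^ 5 * (7 + c) * (D * w ^ 6) +
            C₁ * 52 ^ 5 * 6 * (D * (s * w ^ 5)) := by ring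
      rw [e1, e2]
      linarith
    have h3 := le_of_mul_le_mul_left h2 hD0
    linarith
  have e208 : (208 : ℝ) = Real.exp (Real.log 208) := (Real.exp_log (by norm_num)).symm
  have eL : 208 * A ^ (3/2 : ℝ) * X ^ (-(1/2) : ℝ) =
      Real.exp (Real.log 208 + Real.log A * (3/2) + Real.log X * (-(1/2))) := by
    rw [Real.rpow_def_of_pos hA, Real.rpow_def_of_pos hX, Real.exp_add, Real.exp_add, ← e208]
  rw [eL]
  apply Real.exp_le_exp.2
  rw [← hle]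
  have e3 : -C₁ * (1 + 52 * A) ^ 5 * (1 + Real.log S) =
      -(C₁ * (1 + 52 * A) ^ 5 * (1 + Real.log S)) := by ring
  rw [e3]
  linarith

theorem vortex_ring_e : ∃ C : ℝ, 0 < C ∧ ∀ (A a R T : ℝ) (u : ℝ → E3 → E3) (p : ℝ → E3 → ℝ),
    0 ≤ A → 0 < a → a * Real.exp (C * (1 + A) ^ 6) ≤ R → IsHInfAxisymNS T u p →
    (∀ x, x ∉ Dt R a → curl (u 0) x = 0) → (∀ x, ‖curl (u 0) x‖ ≤ A / a ^ 2) →
    ∃ C' : ℝ, ∀ t ∈ Ico 0 T, ∀ x, |circ (u t) x| ≤ C' * rad x ^ 2 := by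
  obtain ⟨C₁, c₁, hC₁, hc₁, hthm⟩ := thmGe
  obtain ⟨CE, hCE, hen⟩ := en_bd
  obtain ⟨CL, hCL, hlog⟩ := log_D
  obtain ⟨c, hc⟩ : ∃ c, c = 52 * CE * CL := ⟨_, rfl⟩
  have hc0 : 0 ≤ c := by rw [hc]; positivity
  obtain ⟨C, hC8, hthr⟩ := VRe_thr hC₁ hc0
  refine ⟨C, by linarith, ?_⟩
  intro A a R T u p hA ha hMR h hs hb
  by_cases hT : T ≤ 0
  · exact ⟨0, fun t ht => absurd (lt_of_le_of_lt ht.1 ht.2) (not_lt.2 hT)⟩
  push Not at hT
  have hw1 : 1 ≤ (1 + A) ^ 6 := one_le_pow₀ (by linarith)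
  have hCw : 8 ≤ C * (1 + A) ^ 6 := by nlinarith
  have hexp8 : 8 ≤ Real.exp (C * (1 + A) ^ 6) := by
    have := Real.add_one_le_exp (C * (1 + A) ^ 6)
    linarith
  have h8R : 8 * a ≤ R := by nlinarith
  have hR0 : 0 < R := by linarith
  obtain ⟨X, hX⟩ : ∃ X, X = R / a := ⟨_, rfl⟩
  have hXR : R = X * a := by rw [hX]; field_simp
  have hXM : Real.exp (C * (1 + A) ^ 6) ≤ X := by
    rw [hX, le_div_iff₀ ha, mul_comm]
    exact hMR
  have hX8 : 8 ≤ X := hexp8.trans hXM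
  have hX0 : 0 < X := by linarith
  have hlX : 0 ≤ Real.log X := Real.log_nonneg (by linarith)
  have hlXC : C * (1 + A) ^ 6 ≤ Real.log X := (Real.le_log_iff_exp_le hX0).2 hXM
  obtain ⟨S, hS⟩ : ∃ S, S = 4 + c * A ^ 2 * (1 + Real.log X) := ⟨_, rfl⟩
  have hS4 : 4 ≤ S := by
    rw [hS]
    have : 0 ≤ c * A ^ 2 * (1 + Real.log X) := by positivity
    linarith
  have hv : AxF (u 0) := axF_of h.ns ⟨le_rfl, hT⟩
  obtain ⟨K', hK'⟩ := uDB h hT
  have hDB : ∀ j : Fin 3, DB 1 K' (fun x => u 0 x j) := fun j =>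
    DB_mono (hK' 0 ⟨le_rfl, le_rfl⟩ j) (by norm_num) le_rfl
  have hA' : 0 ≤ A / a ^ 2 := by positivity
  obtain ⟨⟨hV1, hV2⟩, hO1, hO2⟩ := sw_int hv ha (by linarith) hs hb
  have hoff := sw_off hv ha (by linarith) hs
  have hO3 : ∫ x, |sO (u 0) x| ≤ 1 + 52 * A := by
    refine hO2.trans ?_
    have e : 52 * (A / a ^ 2) * a ^ 2 = 52 * A := by field_simp
    rw [e]
    linarith
  have hvol := Dt_vol (R := R) ha (by linarith)
  have hen' := hen (u 0) K' (A / a ^ 2) (CL * a ^ 2 * (1 + Real.log (R / a))) (26 * R * a ^ 2)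
    (Dt R a) hv.smooth hv.div hDB (Dt_closed R a).measurableSet hA'
    (by rw [← hX]; positivity) (by positivity) hvol hb hs (hlog R a ha h8R)
  have hE : ∫ x, ‖u 0 x‖ ^ 2 ≤ S * (R / 2) := by
    refine hen'.trans ?_
    rw [← hX]
    have e1 : CE * (A / a ^ 2) ^ 2 * (CL * a ^ 2 * (1 + Real.log X)) * (26 * R * a ^ 2) =
        c * A ^ 2 * (1 + Real.log X) * (R / 2) := by
      rw [hc]
      field_simp
      ring
    rw [e1]
    refine mul_le_mul_of_nonneg_right ?_ (by linarith)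
    rw [hS]
    linarith
  have hV3 : ∫ x, |sV (u 0) x| ^ (3/2 : ℝ) ≤
      Real.exp (-C₁ * (1 + 52 * A) ^ 5 * (1 + Real.log S)) := by
    refine hV2.trans ?_
    rcases hA.eq_or_lt with hA0 | hA0
    · rw [← hA0]
      have e : (4 * ((0 : ℝ) / a ^ 2) * a / R) ^ (3/2 : ℝ) = 0 := by
        rw [zero_div, mul_zero, zero_mul, zero_div, Real.zero_rpow (by norm_num)]
      rw [e, zero_mul]
      exact (Real.exp_pos _).le
    · rw [hXR, VRing_pow hA0 ha hX0, hS]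
      exact hthr A X hA0 hX0 hlXC
  obtain ⟨C', hC'⟩ := hthm (1 + 52 * A) S (R / 2) T u p (by linarith) (by linarith) (by linarith) h
    hO1 hO3
    (by
      have e : ∫ x in {x : E3 | S * (R / 2) ≤ ‖x‖}, |sO (u 0) x| = 0 := by
        refine setIntegral_eq_zero_of_forall_eq_zero fun x hx => ?_
        have hx' : S * (R / 2) ≤ ‖x‖ := hx
        rw [(hoff x (VRing_far ha h8R (by nlinarith))).2, abs_zero]
      rw [e]
      exact hc₁.le)
    (fun z => by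
      have e : ∫ x in Metric.ball (axp z) (R / 2), |sO (u 0) x| = 0 := by
        refine setIntegral_eq_zero_of_forall_eq_zero fun x hx => ?_
        rw [(hoff x (VRing_ball ha h8R hx)).2, abs_zero]
      rw [e]
      exact hc₁.le) hE hV1 hV3
  refine ⟨C', fun t ht x => ?_⟩
  rw [circ_eq (axF_of h.ns ht) x, abs_mul, ← rad_sq', abs_of_nonneg (sq_nonneg _), mul_comm]
  exact mul_le_mul_of_nonneg_right (hC' t ht x) (sq_nonneg _)

end Pool.Agent.H87.NS
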